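import Pool.Agent.U573.LF.Sys

/-! The variety attached to a system in `r` unknowns over a product of `r` conics -/

set_option autoImplicit false

namespace Pool.Agent.U573.LF

open MvPolynomial

section

variable {r : ℕ} (c c' α β : Fin r → ℂ) (A B : Fin r → MvPolynomial (Fin r ⊕ Fin r) ℂ)

/-- the base point -/
noncomputable def bs (p : Fin r ⊕ Fin r → ℂ) : Fin (r + r) → ℂ :=
  Fin.addCases (fun b => c b * α b * p (Sum.inl b) + c' b * β b * (p (Sum.inl b))⁻¹)
    (fun b => α b * p (Sum.inl b) + β b * (p (Sum.inl b))⁻¹)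

noncomputable def ys (p : Fin r ⊕ Fin r → ℂ) : Fin (r + r) → ℂ :=
  Fin.addCases (fun b => p (Sum.inr b)) (fun b => eval p (A b) / eval p (B b))

noncomputable def pt (p : Fin r ⊕ Fin r → ℂ) : Fin (r + r) ⊕ Fin (r + r) → ℂ :=
  Sum.elim (bs c c' α β p) (ys A B p)

noncomputable def D1 (r : ℕ) : MvPolynomial (Fin r ⊕ Fin r) ℂ := ∏ b, X (Sum.inl b)

noncomputable def DD : MvPolynomial (Fin r ⊕ Fin r) ℂ :=
  D1 r * ∏ b, (X (Sum.inr b) * A b * B b)

/-- the equations of the base -/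
noncomputable def Fb (b : Fin r) : MvPolynomial (Fin (r + r)) ℂ :=
  (X (Fin.castAdd r b) - C (c b) * X (Fin.natAdd r b)) *
    (X (Fin.castAdd r b) - C (c' b) * X (Fin.natAdd r b)) + C ((c b - c' b) ^ 2 * α b * β b)

noncomputable def PP : Ideal (MvPolynomial (Fin (r + r) ⊕ Fin (r + r)) ℂ) where
  carrier := {f | ∀ p, eval p (DD A B) ≠ 0 → eval (pt c c' α β A B p) f = 0}
  add_mem' := fun {f g} hf hg p hp => by rw [map_add, hf p hp, hg p hp, add_zero]
  zero_mem' := fun p _ => map_zero _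
  smul_mem' := fun a f hf p hp => by rw [smul_eq_mul, map_mul, hf p hp, mul_zero]

def VV : Set (Fin (r + r) ⊕ Fin (r + r) → ℂ) :=
  {p | (∀ f ∈ PP c c' α β A B, eval p f = 0) ∧ ∀ j : Fin (r + r), p (Sum.inr j) ≠ 0}

theorem mem_PP (f : MvPolynomial (Fin (r + r) ⊕ Fin (r + r)) ℂ) :
    f ∈ PP c c' α β A B ↔ ∀ p, eval p (DD A B) ≠ 0 → eval (pt c c' α β A B p) f = 0 := Iff.rfl

theorem DD_ne {p : Fin r ⊕ Fin r → ℂ} (h : eval p (DD A B) ≠ 0) :
    eval p (D1 r) ≠ 0 ∧ (∀ b, p (Sum.inl b) ≠ 0) ∧ (∀ b, p (Sum.inr b) ≠ 0) ∧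
      (∀ b, eval p (A b) ≠ 0) ∧ ∀ b, eval p (B b) ≠ 0 := by
  unfold DD at h
  rw [map_mul] at h
  have h1 : eval p (D1 r) ≠ 0 := left_ne_zero_of_mul h
  have h2 := right_ne_zero_of_mul h
  rw [map_prod, Finset.prod_ne_zero_iff] at h2
  have h1' := h1
  unfold D1 at h1'
  rw [map_prod, Finset.prod_ne_zero_iff] at h1'
  refine ⟨h1, fun b => by simpa using h1' b (Finset.mem_univ b), fun b => ?_, fun b => ?_,
    fun b => ?_⟩
  · have := h2 b (Finset.mem_univ b)
    rw [map_mul, map_mul, eval_X] at this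
    exact left_ne_zero_of_mul (left_ne_zero_of_mul this)
  · have := h2 b (Finset.mem_univ b)
    rw [map_mul, map_mul] at this
    exact right_ne_zero_of_mul (left_ne_zero_of_mul this)
  · have := h2 b (Finset.mem_univ b)
    rw [map_mul, map_mul] at this
    exact right_ne_zero_of_mul this

theorem D1_ne {p : Fin r ⊕ Fin r → ℂ} (h : ∀ b, p (Sum.inl b) ≠ 0) : eval p (D1 r) ≠ 0 := by
  unfold D1
  rw [map_prod, Finset.prod_ne_zero_iff]
  intro b _
  rw [eval_X]
  exact h b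

theorem D1_ne' {p : Fin r ⊕ Fin r → ℂ} (h : eval p (D1 r) ≠ 0) (b : Fin r) :
    p (Sum.inl b) ≠ 0 := by
  unfold D1 at h
  rw [map_prod, Finset.prod_ne_zero_iff] at h
  simpa using h b (Finset.mem_univ b)

theorem DD_ne_zero (hA : ∀ b, A b ≠ 0) (hB : ∀ b, B b ≠ 0) : DD A B ≠ 0 := by
  unfold DD D1
  refine mul_ne_zero (Finset.prod_ne_zero_iff.2 fun b _ => X_ne_zero _)
    (Finset.prod_ne_zero_iff.2 fun b _ => mul_ne_zero (mul_ne_zero (X_ne_zero _) (hA b)) (hB b))

theorem exists_ne (f : MvPolynomial (Fin r ⊕ Fin r) ℂ) (hf : f ≠ 0) (hA : ∀ b, A b ≠ 0)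
    (hB : ∀ b, B b ≠ 0) : ∃ p, eval p (DD A B) ≠ 0 ∧ eval p f ≠ 0 := by
  by_contra hcon
  push Not at hcon
  exact hf (zero_of _ f (DD_ne_zero A B hA hB) hcon)

theorem clear_base (i : Fin (r + r)) : ∃ (M : ℕ) (x : MvPolynomial (Fin r ⊕ Fin r) ℂ),
    ∀ p, eval p (D1 r) ≠ 0 → eval p x = (eval p (D1 r)) ^ M * bs c c' α β p i := by
  refine Fin.addCases (fun b => ?_) (fun b => ?_) i
  · obtain ⟨D', hD'⟩ : (X (Sum.inl b) : MvPolynomial (Fin r ⊕ Fin r) ℂ) ∣ D1 r :=
      Finset.dvd_prod_of_mem _ (Finset.mem_univ b)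
    refine ⟨1, D' * (C (c b * α b) * X (Sum.inl b) ^ 2 + C (c' b * β b)), fun p hp => ?_⟩
    have hb := D1_ne' hp b
    unfold bs
    rw [Fin.addCases_left, hD']
    simp only [map_mul, map_add, map_pow, eval_X, eval_C]
    field_simp
  · obtain ⟨D', hD'⟩ : (X (Sum.inl b) : MvPolynomial (Fin r ⊕ Fin r) ℂ) ∣ D1 r :=
      Finset.dvd_prod_of_mem _ (Finset.mem_univ b)
    refine ⟨1, D' * (C (α b) * X (Sum.inl b) ^ 2 + C (β b)), fun p hp => ?_⟩
    have hb := D1_ne' hp b
    unfold bs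
    rw [Fin.addCases_right, hD']
    simp only [map_mul, map_add, map_pow, eval_X, eval_C]
    field_simp

theorem clear_pt (i : Fin (r + r) ⊕ Fin (r + r)) :
    ∃ (M : ℕ) (x : MvPolynomial (Fin r ⊕ Fin r) ℂ),
    ∀ p, eval p (DD A B) ≠ 0 → eval p x = (eval p (DD A B)) ^ M * pt c c' α β A B p i := by
  rcases i with i | i
  · obtain ⟨M, x, hx⟩ := clear_base c c' α β i
    refine ⟨M, x * (∏ b, (X (Sum.inr b) * A b * B b)) ^ M, fun p hp => ?_⟩
    rw [map_mul, hx p (DD_ne A B hp).1]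
    unfold pt DD
    rw [Sum.elim_inl, map_mul, mul_pow, map_pow]
    ring
  · refine Fin.addCases (fun b => ?_) (fun b => ?_) i
    · refine ⟨0, X (Sum.inr b), fun p _ => ?_⟩
      unfold pt ys
      rw [Sum.elim_inr, Fin.addCases_left, eval_X, pow_zero, one_mul]
    · obtain ⟨D', hD'⟩ : B b ∣ DD A B := by
        unfold DD
        refine Dvd.dvd.mul_left ?_ _
        exact (Dvd.intro_left _ rfl).trans (Finset.dvd_prod_of_mem
          (fun b => (X (Sum.inr b) : MvPolynomial (Fin r ⊕ Fin r) ℂ) * A b * B b)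
          (Finset.mem_univ b))
      refine ⟨1, D' * A b, fun p hp => ?_⟩
      have hb := (DD_ne A B hp).2.2.2.2 b
      unfold pt ys
      rw [Sum.elim_inr, Fin.addCases_right, hD', map_mul, map_mul]
      field_simp

theorem prime_PP (hA : ∀ b, A b ≠ 0) (hB : ∀ b, B b ≠ 0) : (PP c c' α β A B).IsPrime := by
  constructor
  · intro h
    have h1 : (1 : MvPolynomial (Fin (r + r) ⊕ Fin (r + r)) ℂ) ∈ PP c c' α β A B := by
      rw [h]; trivial
    obtain ⟨p, hp, -⟩ := exists_ne A B 1 one_ne_zero hA hB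
    have := h1 p hp
    rw [map_one] at this
    exact one_ne_zero this
  · intro f g hfg
    obtain ⟨N, f', hf⟩ := clear (DD A B) (pt c c' α β A B) (clear_pt c c' α β A B) f
    obtain ⟨M, g', hg⟩ := clear (DD A B) (pt c c' α β A B) (clear_pt c c' α β A B) g
    have h1 : f' * g' = 0 := by
      refine zero_of _ _ (DD_ne_zero A B hA hB) fun p hp => ?_
      have h2 := hfg p hp
      rw [map_mul] at h2 ⊢
      rw [hf p hp, hg p hp]
      linear_combination (eval p (DD A B)) ^ N * (eval p (DD A B)) ^ M * h2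
    rcases mul_eq_zero.1 h1 with h | h
    · left
      intro p hp
      have := hf p hp
      rw [h, map_zero] at this
      exact (mul_eq_zero.1 this.symm).resolve_left (pow_ne_zero _ hp)
    · right
      intro p hp
      have := hg p hp
      rw [h, map_zero] at this
      exact (mul_eq_zero.1 this.symm).resolve_left (pow_ne_zero _ hp)

theorem pt_mem {p : Fin r ⊕ Fin r → ℂ} (hp : eval p (DD A B) ≠ 0) :
    pt c c' α β A B p ∈ VV c c' α β A B := by
  obtain ⟨h0, h1, h2, h3, h4⟩ := DD_ne A B hp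
  refine ⟨fun f hf => hf p hp, fun j => ?_⟩
  unfold pt ys
  rw [Sum.elim_inr]
  refine Fin.addCases (fun b => ?_) (fun b => ?_) j
  · rw [Fin.addCases_left]; exact h2 b
  · rw [Fin.addCases_right]; exact div_ne_zero (h3 b) (h4 b)

theorem nonempty_VV (hA : ∀ b, A b ≠ 0) (hB : ∀ b, B b ≠ 0) : (VV c c' α β A B).Nonempty := by
  obtain ⟨p, hp, -⟩ := exists_ne A B 1 one_ne_zero hA hB
  exact ⟨_, pt_mem c c' α β A B hp⟩

/-- polynomials in the base coordinates which vanish on `V` vanish at all points `bs p` -/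
theorem base_zero (hA : ∀ b, A b ≠ 0) (hB : ∀ b, B b ≠ 0) (G : MvPolynomial (Fin (r + r)) ℂ)
    (hG : ∀ u ∈ VV c c' α β A B, eval (fun i => u (Sum.inl i)) G = 0)
    (p : Fin r ⊕ Fin r → ℂ) (hp : ∀ b, p (Sum.inl b) ≠ 0) : eval (bs c c' α β p) G = 0 := by
  obtain ⟨N, G', h1⟩ := clear (D1 r) (bs c c' α β) (clear_base c c' α β) G
  have h2 : G' = 0 := by
    refine zero_of _ _ (DD_ne_zero A B hA hB) fun q hq => ?_
    rw [h1 q (DD_ne A B hq).1]
    have h3 := hG _ (pt_mem c c' α β A B hq)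
    have h4 : (fun i => pt c c' α β A B q (Sum.inl i)) = bs c c' α β q := rfl
    rw [h4] at h3
    rw [h3, mul_zero]
  have h3 := h1 p (D1_ne hp)
  rw [h2, map_zero] at h3
  exact (mul_eq_zero.1 h3.symm).resolve_left (pow_ne_zero _ (D1_ne hp))

theorem Fb_eval (b : Fin r) (x : Fin (r + r) → ℂ) : eval x (Fb c c' α β b) =
    (x (Fin.castAdd r b) - c b * x (Fin.natAdd r b)) *
    (x (Fin.castAdd r b) - c' b * x (Fin.natAdd r b)) + (c b - c' b) ^ 2 * α b * β b := by
  unfold Fb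
  simp only [map_mul, map_add, map_sub, eval_X, eval_C]

theorem bs_left (p : Fin r ⊕ Fin r → ℂ) (b : Fin r) : bs c c' α β p (Fin.castAdd r b) =
    c b * α b * p (Sum.inl b) + c' b * β b * (p (Sum.inl b))⁻¹ := by
  unfold bs
  rw [Fin.addCases_left]

theorem bs_right (p : Fin r ⊕ Fin r → ℂ) (b : Fin r) : bs c c' α β p (Fin.natAdd r b) =
    α b * p (Sum.inl b) + β b * (p (Sum.inl b))⁻¹ := by
  unfold bs
  rw [Fin.addCases_right]

theorem Fb_bs (hc : ∀ b, c b ≠ c' b) (hα : ∀ b, α b ≠ 0) (b : Fin r) (p : Fin r ⊕ Fin r → ℂ)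
    (hp : ∀ b, p (Sum.inl b) ≠ 0) : eval (bs c c' α β p) (Fb c c' α β b) = 0 := by
  rw [Fb_eval, bs_left, bs_right]
  exact (conic' (hp b) (hc b) (hα b)).1

theorem Fb_V (hc : ∀ b, c b ≠ c' b) (hα : ∀ b, α b ≠ 0) (b : Fin r)
    (u : Fin (r + r) ⊕ Fin (r + r) → ℂ) (hu : u ∈ VV c c' α β A B) :
    eval (fun i => u (Sum.inl i)) (Fb c c' α β b) = 0 := by
  have h1 : rename Sum.inl (Fb c c' α β b) ∈ PP c c' α β A B := by
    intro p hp
    rw [eval_rename]
    exact Fb_bs c c' α β hc hα b p (DD_ne A B hp).2.1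
  have h2 := hu.1 _ h1
  rw [eval_rename] at h2
  exact h2

/-- points of the base -/
theorem of_Fb (hc : ∀ b, c b ≠ c' b) (hα : ∀ b, α b ≠ 0) (hβ : ∀ b, β b ≠ 0)
    (x : Fin (r + r) → ℂ) (hx : ∀ b, eval x (Fb c c' α β b) = 0) (y : Fin r → ℂ) :
    ∃ t : Fin r → ℂ, (∀ b, t b ≠ 0) ∧
      (∀ b, t b = ((c b - c' b) * α b)⁻¹ * (x (Fin.castAdd r b) - c' b * x (Fin.natAdd r b))) ∧
      x = bs c c' α β (Sum.elim t y) := by
  have h1 : ∀ b, ∃ t : ℂ, t ≠ 0 ∧
      t = ((c b - c' b) * α b)⁻¹ * (x (Fin.castAdd r b) - c' b * x (Fin.natAdd r b)) ∧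
      x (Fin.castAdd r b) = c b * α b * t + c' b * β b * t⁻¹ ∧
      x (Fin.natAdd r b) = α b * t + β b * t⁻¹ := by
    intro b
    have := hx b
    rw [Fb_eval] at this
    exact conic (hc b) (hα b) (hβ b) this
  choose t ht0 ht1 ht2 ht3 using h1
  refine ⟨t, ht0, ht1, ?_⟩
  funext i
  refine Fin.addCases (fun b => ?_) (fun b => ?_) i
  · rw [bs_left, ht2 b, Sum.elim_inl]
  · rw [bs_right, ht3 b, Sum.elim_inl]

theorem base_contains (hc : ∀ b, c b ≠ c' b) (hα : ∀ b, α b ≠ 0) (hβ : ∀ b, β b ≠ 0)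
    (hA : ∀ b, A b ≠ 0) (hB : ∀ b, B b ≠ 0)
    (x : Fin (r + r) → ℂ) (hx : ∀ b, eval x (Fb c c' α β b) = 0)
    (G : MvPolynomial (Fin (r + r)) ℂ)
    (hG : ∀ u ∈ VV c c' α β A B, eval (fun i => u (Sum.inl i)) G = 0) : eval x G = 0 := by
  obtain ⟨t, ht0, -, ht⟩ := of_Fb c c' α β hc hα hβ x hx 0
  rw [ht]
  exact base_zero c c' α β A B hA hB G hG _ fun b => by simpa using ht0 b

theorem base_dim1 (hα : ∀ b, α b ≠ 0) (hβ : ∀ b, β b ≠ 0) (h0 : ∀ b, c b ≠ 0)
    (h0' : ∀ b, c' b ≠ 0) (hA : ∀ b, A b ≠ 0) (hB : ∀ b, B b ≠ 0) :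
    ∃ K : Finset (Fin (r + r)), K.card = r ∧ ∀ G : MvPolynomial (Fin (r + r)) ℂ, G.vars ⊆ K →
      (∀ u ∈ VV c c' α β A B, eval (fun i => u (Sum.inl i)) G = 0) → G = 0 := by
  classical
  refine ⟨Finset.univ.image (Fin.castAdd r), ?_, fun G hG hGV => ?_⟩
  · rw [Finset.card_image_of_injective _ (Fin.castAdd_injective _ _), Finset.card_univ,
      Fintype.card_fin]
  · apply MvPolynomial.funext
    intro x
    rw [map_zero]
    have h1 : ∀ b, ∃ t : ℂ, t ≠ 0 ∧ x (Fin.castAdd r b) = c b * α b * t + c' b * β b * t⁻¹ :=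
      fun b => exists_param (mul_ne_zero (h0 b) (hα b)) (mul_ne_zero (h0' b) (hβ b))
    choose t ht0 ht using h1
    have h2 := base_zero c c' α β A B hA hB G hGV (Sum.elim t 0) fun b => by simpa using ht0 b
    rw [← h2]
    refine eval₂Hom_congr' rfl ?_ rfl
    intro i hi _
    obtain ⟨b, -, rfl⟩ := Finset.mem_image.1 (hG hi)
    rw [bs_left, ht b, Sum.elim_inl]

theorem base_dim2 (hc : ∀ b, c b ≠ c' b) (hα : ∀ b, α b ≠ 0) (hβ : ∀ b, β b ≠ 0)
    (K : Finset (Fin (r + r))) (hK : K.card = r + 1) :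
    ¬ ∀ G : MvPolynomial (Fin (r + r)) ℂ, G.vars ⊆ K →
      (∀ u ∈ VV c c' α β A B, eval (fun i => u (Sum.inl i)) G = 0) → G = 0 := by
  classical
  intro hcon
  obtain ⟨i, hi, j, hj, hij, he⟩ := Finset.exists_ne_map_eq_of_card_lt_of_maps_to
    (s := K) (t := (Finset.univ : Finset (Fin r)))
    (f := fun i : Fin (r + r) => Fin.addCases (motive := fun _ => Fin r) id id i)
    (by rw [hK, Finset.card_univ, Fintype.card_fin]; omega) (fun _ _ => Finset.mem_univ _)
  have hb : ∃ b : Fin r, Fin.castAdd r b ∈ K ∧ Fin.natAdd r b ∈ K := by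
    revert hi hj hij he
    refine Fin.addCases (fun b => ?_) (fun b => ?_) i <;>
    refine Fin.addCases (fun b' => ?_) (fun b' => ?_) j <;> intro hi hj hij he
    · simp only [Fin.addCases_left, id] at he
      exact absurd (by rw [he]) hij
    · simp only [Fin.addCases_left, Fin.addCases_right, id] at he
      subst he
      exact ⟨b, hi, hj⟩
    · simp only [Fin.addCases_left, Fin.addCases_right, id] at he
      subst he
      exact ⟨b, hj, hi⟩
    · simp only [Fin.addCases_right, id] at he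
      exact absurd (by rw [he]) hij
  obtain ⟨b, hb1, hb2⟩ := hb
  have h1 := hcon (Fb c c' α β b) (by
    have hX : ∀ (i : Fin (r + r)), i ∈ K → (X i : MvPolynomial (Fin (r + r)) ℂ) ∈
        supported ℂ (K : Set (Fin (r + r))) := fun i hi => by
      rw [mem_supported, vars_X]
      simpa using hi
    have hC : ∀ a : ℂ, (C a : MvPolynomial (Fin (r + r)) ℂ) ∈
        supported ℂ (K : Set (Fin (r + r))) := fun a => by
      rw [mem_supported, vars_C]
      simp
    have : Fb c c' α β b ∈ supported ℂ (K : Set (Fin (r + r))) := by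
      unfold Fb
      exact add_mem (mul_mem (sub_mem (hX _ hb1) (mul_mem (hC _) (hX _ hb2)))
        (sub_mem (hX _ hb1) (mul_mem (hC _) (hX _ hb2)))) (hC _)
    rw [mem_supported] at this
    exact_mod_cast this) (fun u hu => Fb_V c c' α β A B hc hα b u hu)
  have h2 : eval 0 (Fb c c' α β b) = 0 := by rw [h1, map_zero]
  rw [Fb_eval] at h2
  simp only [Pi.zero_apply, mul_zero, sub_zero, zero_add] at h2
  exact mul_ne_zero (mul_ne_zero (pow_ne_zero 2 (sub_ne_zero.2 (hc b))) (hα b)) (hβ b) h2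

theorem indep_base (g : MvPolynomial (Fin r) (MvPolynomial (Fin (r + r)) ℂ))
    (hg : ∀ u ∈ VV c c' α β A B, eval (fun b => u (Sum.inr (Fin.castAdd r b)))
      (MvPolynomial.map (eval fun i => u (Sum.inl i)) g) = 0)
    (m : Fin r →₀ ℕ) (u : Fin (r + r) ⊕ Fin (r + r) → ℂ) (hu : u ∈ VV c c' α β A B) :
    eval (fun i => u (Sum.inl i)) (coeff m g) = 0 := by
  have h1 : rename Sum.inl (coeff m g) ∈ PP c c' α β A B := by
    intro p hp
    rw [eval_rename]
    show eval (bs c c' α β p) (coeff m g) = 0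
    set E : MvPolynomial (Fin r) ℂ :=
      aeval (Sum.elim (fun b => C (p (Sum.inl b))) X) (DD A B) with hE
    have hEe : ∀ y, eval y E = eval (Sum.elim (fun b => p (Sum.inl b)) y) (DD A B) := by
      intro y
      have h3 : (eval y).comp (aeval (Sum.elim (fun b => C (p (Sum.inl b))) X) :
          MvPolynomial (Fin r ⊕ Fin r) ℂ →ₐ[ℂ] MvPolynomial (Fin r) ℂ).toRingHom =
          eval (Sum.elim (fun b => p (Sum.inl b)) y) := by
        apply MvPolynomial.ringHom_ext
        · intro a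
          simp
        · rintro (b | b) <;> simp
      exact congrArg (fun φ => φ (DD A B)) h3
    have hp' : p = Sum.elim (fun b => p (Sum.inl b)) (fun b => p (Sum.inr b)) := by
      funext i
      rcases i with b | b <;> rfl
    have hE0 : E ≠ 0 := by
      intro h
      apply hp
      rw [hp', ← hEe, h, map_zero]
    have h4 : MvPolynomial.map (eval (bs c c' α β p)) g = 0 := by
      refine zero_of E _ hE0 fun y hy => ?_
      rw [hEe] at hy
      have h5 := hg _ (pt_mem c c' α β A B hy)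
      have h6 : (fun i => pt c c' α β A B (Sum.elim (fun b => p (Sum.inl b)) y) (Sum.inl i)) =
          bs c c' α β p := by
        funext i
        show bs c c' α β (Sum.elim (fun b => p (Sum.inl b)) y) i = _
        refine Fin.addCases (fun b => ?_) (fun b => ?_) i
        · rw [bs_left, bs_left, Sum.elim_inl]
        · rw [bs_right, bs_right, Sum.elim_inl]
      have h7 : (fun b => pt c c' α β A B (Sum.elim (fun b => p (Sum.inl b)) y)
          (Sum.inr (Fin.castAdd r b))) = y := by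
        funext b
        unfold pt ys
        rw [Sum.elim_inr, Fin.addCases_left, Sum.elim_inr]
      rw [h6, h7] at h5
      exact h5
    have h5 := congrArg (coeff m) h4
    rw [coeff_map, coeff_zero] at h5
    exact h5
  have h2 := hu.1 _ h1
  rw [eval_rename] at h2
  exact h2

/-- the parameters as polynomials on the variety -/
noncomputable def tau (i : Fin r ⊕ Fin r) : MvPolynomial (Fin (r + r) ⊕ Fin (r + r)) ℂ :=
  Sum.elim (fun b => C (((c b - c' b) * α b)⁻¹) * (X (Sum.inl (Fin.castAdd r b)) -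
    C (c' b) * X (Sum.inl (Fin.natAdd r b)))) (fun b => X (Sum.inr (Fin.castAdd r b))) i

theorem eval_tau (f : MvPolynomial (Fin r ⊕ Fin r) ℂ)
    (u : Fin (r + r) ⊕ Fin (r + r) → ℂ) : eval u (aeval (tau c c' α) f) =
      eval (Sum.elim (fun b => ((c b - c' b) * α b)⁻¹ * (u (Sum.inl (Fin.castAdd r b)) -
        c' b * u (Sum.inl (Fin.natAdd r b)))) (fun b => u (Sum.inr (Fin.castAdd r b)))) f := by
  have h3 : (eval u).comp (aeval (tau c c' α) : MvPolynomial (Fin r ⊕ Fin r) ℂ →ₐ[ℂ]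
      MvPolynomial (Fin (r + r) ⊕ Fin (r + r)) ℂ).toRingHom =
      eval (Sum.elim (fun b => ((c b - c' b) * α b)⁻¹ * (u (Sum.inl (Fin.castAdd r b)) -
        c' b * u (Sum.inl (Fin.natAdd r b)))) (fun b => u (Sum.inr (Fin.castAdd r b)))) := by
    apply MvPolynomial.ringHom_ext
    · intro a
      simp
    · rintro (b | b) <;> simp [tau]
  exact congrArg (fun φ => φ f) h3

theorem eval_tau_pt (hc : ∀ b, c b ≠ c' b) (hα : ∀ b, α b ≠ 0)
    (f : MvPolynomial (Fin r ⊕ Fin r) ℂ) (p : Fin r ⊕ Fin r → ℂ)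
    (hp : ∀ b, p (Sum.inl b) ≠ 0) :
    eval (pt c c' α β A B p) (aeval (tau c c' α) f) = eval p f := by
  rw [eval_tau]
  congr 1
  have : (Sum.elim (fun b => ((c b - c' b) * α b)⁻¹ *
      (pt c c' α β A B p (Sum.inl (Fin.castAdd r b)) -
        c' b * pt c c' α β A B p (Sum.inl (Fin.natAdd r b))))
      (fun b => pt c c' α β A B p (Sum.inr (Fin.castAdd r b)))) = p := by
    funext i
    rcases i with b | b
    · rw [Sum.elim_inl]
      show ((c b - c' b) * α b)⁻¹ * (bs c c' α β p (Fin.castAdd r b) -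
        c' b * bs c c' α β p (Fin.natAdd r b)) = _
      rw [bs_left, bs_right]
      exact (conic' (hp b) (hc b) (hα b)).2
    · rw [Sum.elim_inr]
      unfold pt ys
      rw [Sum.elim_inr, Fin.addCases_left]
  rw [this]

theorem relation (hc : ∀ b, c b ≠ c' b) (hα : ∀ b, α b ≠ 0) (b : Fin r)
    (u : Fin (r + r) ⊕ Fin (r + r) → ℂ) (hu : u ∈ VV c c' α β A B) :
    eval u (aeval (tau c c' α) (B b)) * u (Sum.inr (Fin.natAdd r b)) =
      eval u (aeval (tau c c' α) (A b)) := by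
  have h1 : aeval (tau c c' α) (B b) * X (Sum.inr (Fin.natAdd r b)) -
      aeval (tau c c' α) (A b) ∈ PP c c' α β A B := by
    intro p hp
    obtain ⟨-, g1, g2, g3, g4⟩ := DD_ne A B hp
    rw [map_sub, map_mul, eval_X, eval_tau_pt c c' α β A B hc hα _ _ g1,
      eval_tau_pt c c' α β A B hc hα _ _ g1]
    unfold pt ys
    rw [Sum.elim_inr, Fin.addCases_right, mul_div_cancel₀ _ (g4 b), sub_self]
  have h2 := hu.1 _ h1
  rw [map_sub, map_mul, eval_X] at h2
  exact sub_eq_zero.1 h2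

end

end Pool.Agent.U573.LF
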