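import Mathlib

/-! Linear spaces `z_{a(b)} = γ_b z_{a'(b)}` -/

set_option autoImplicit false

namespace Pool.Agent.U573.LF

open MvPolynomial

section det

variable {r : ℕ}

theorem row_update (M : Matrix (Fin r) (Fin r) ℂ) (γ : Fin r → ℂ) (b : Fin r) (t : ℂ) :
    (1 - Matrix.diagonal (Function.update γ b t) * M) =
      Matrix.updateRow (1 - Matrix.diagonal γ * M) b
        ((1 : Matrix (Fin r) (Fin r) ℂ) b + (-t) • M b) := by
  ext i j
  by_cases h : i = b
  · subst h
    simp [Matrix.updateRow_self, Matrix.diagonal_mul]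
    ring
  · rw [Matrix.updateRow_ne h]
    simp [Matrix.diagonal_mul, Function.update_of_ne h]

theorem exists_det (M : Matrix (Fin r) (Fin r) ℂ) (c c' : Fin r → ℂ) (hc : ∀ b, c b ≠ c' b) :
    ∃ γ : Fin r → ℂ, (∀ b, γ b = c b ∨ γ b = c' b) ∧ (1 - Matrix.diagonal γ * M).det ≠ 0 := by
  classical
  by_contra hcon
  push Not at hcon
  have key : ∀ T : Finset (Fin r), ∀ γ : Fin r → ℂ, (∀ b, b ∉ T → γ b = c b ∨ γ b = c' b) →
      (1 - Matrix.diagonal γ * M).det = 0 := by
    intro T
    induction T using Finset.induction_on with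
    | empty => exact fun γ h => hcon γ fun b => h b (Finset.notMem_empty b)
    | insert b T hb ih =>
      intro γ h
      have hf : ∀ t : ℂ, (1 - Matrix.diagonal (Function.update γ b t) * M).det =
          (Matrix.updateRow (1 - Matrix.diagonal γ * M) b
            ((1 : Matrix (Fin r) (Fin r) ℂ) b)).det +
          (-t) * (Matrix.updateRow (1 - Matrix.diagonal γ * M) b (M b)).det := by
        intro t
        rw [row_update, Matrix.det_updateRow_add, Matrix.det_updateRow_smul]
      have h1 : ∀ t : ℂ, (t = c b ∨ t = c' b) →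
          (1 - Matrix.diagonal (Function.update γ b t) * M).det = 0 := by
        intro t ht
        apply ih
        intro b' hb'
        by_cases e : b' = b
        · subst e
          rw [Function.update_self]
          exact ht
        · rw [Function.update_of_ne e]
          exact h b' (by simp [e, hb'])
      have h2 := h1 _ (Or.inl rfl)
      have h3 := h1 _ (Or.inr rfl)
      rw [hf] at h2 h3
      have h4 : (c' b - c b) * (Matrix.updateRow (1 - Matrix.diagonal γ * M) b (M b)).det = 0 := by
        linear_combination h2 - h3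
      have h5 : (Matrix.updateRow (1 - Matrix.diagonal γ * M) b (M b)).det = 0 := by
        rcases mul_eq_zero.1 h4 with h | h
        · exact absurd (sub_eq_zero.1 h).symm (hc b)
        · exact h
      have h6 := hf (γ b)
      rw [Function.update_eq_self, h5, mul_zero, add_zero] at h6
      rw [h5, mul_zero, add_zero] at h2
      rw [h6, h2]
  have h0 := key Finset.univ 0 fun b hb => absurd (Finset.mem_univ b) hb
  apply one_ne_zero (α := ℂ)
  rw [← h0]
  have : Matrix.diagonal (0 : Fin r → ℂ) = 0 := Matrix.diagonal_zero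
  rw [this, zero_mul, sub_zero, Matrix.det_one]

end det

variable {n r : ℕ} (a a' : Fin r → Fin n)

/-- the linear space `z_{a(b)} = γ_b z_{a'(b)}` -/
def LG (γ : Fin r → ℂ) : Submodule ℂ (Fin n → ℂ) where
  carrier := {z | ∀ b, z (a b) = γ b * z (a' b)}
  add_mem' := by
    intro z w hz hw b
    rw [Pi.add_apply, Pi.add_apply, hz b, hw b, mul_add]
  zero_mem' := by
    intro b
    simp
  smul_mem' := by
    intro t z hz b
    rw [Pi.smul_apply, Pi.smul_apply, smul_eq_mul, smul_eq_mul, hz b]
    ring

theorem mem_LG (γ : Fin r → ℂ) (z : Fin n → ℂ) : z ∈ LG a a' γ ↔ ∀ b, z (a b) = γ b * z (a' b) :=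
  Iff.rfl

variable (ha : Function.Injective a) (ha' : Function.Injective a') (hd : ∀ b b', a b ≠ a' b')

include ha hd in
theorem finrank_LG {s : ℕ} (hn : n = s + r) (γ : Fin r → ℂ) :
    Module.finrank ℂ (LG a a' γ) = s := by
  classical
  let A : (Fin n → ℂ) →ₗ[ℂ] (Fin r → ℂ) :=
    { toFun := fun z b => z (a b) - γ b * z (a' b)
      map_add' := fun z w => by
        funext b
        simp only [Pi.add_apply]
        ring
      map_smul' := fun t z => by
        funext b
        simp only [Pi.smul_apply, smul_eq_mul, RingHom.id_apply]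
        ring }
  have hA : ∀ z b, A z b = z (a b) - γ b * z (a' b) := fun _ _ => rfl
  have hker : LinearMap.ker A = LG a a' γ := by
    ext z
    rw [LinearMap.mem_ker, mem_LG]
    constructor
    · intro h b
      have h1 := congrFun h b
      rw [hA, Pi.zero_apply, sub_eq_zero] at h1
      exact h1
    · intro h
      funext b
      rw [hA, h b, sub_self, Pi.zero_apply]
  have hsurj : LinearMap.range A = ⊤ := by
    rw [LinearMap.range_eq_top]
    intro w
    refine ⟨fun i => ∑ b, if a b = i then w b else 0, ?_⟩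
    funext b
    rw [hA]
    have h1 : (∑ b', if a b' = a b then w b' else 0) = w b := by
      rw [Finset.sum_eq_single b]
      · simp
      · intro b' _ hb'
        rw [if_neg fun h => hb' (ha h)]
      · intro h
        exact absurd (Finset.mem_univ b) h
    have h2 : (∑ b', if a b' = a' b then w b' else 0) = 0 := by
      refine Finset.sum_eq_zero fun b' _ => ?_
      rw [if_neg (hd b' b)]
    rw [h1, h2, mul_zero, sub_zero]
  have h1 := A.finrank_range_add_finrank_ker
  rw [hsurj, finrank_top, Module.finrank_fin_fun, Module.finrank_fin_fun, hker] at h1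
  omega

include ha ha' hd in
theorem real_LG (γ : Fin r → ℂ) (hγ : ∀ b, (γ b).im ≠ 0) (c : Fin n → ℝ) (hc : c ≠ 0) :
    ∃ v ∈ LG a a' γ, ∑ i, (c i : ℂ) * v i ≠ 0 := by
  classical
  by_contra hcon
  push Not at hcon
  apply hc
  have hab : ∀ b, c (a b) = 0 ∧ c (a' b) = 0 := by
    intro b
    have h1 := hcon (fun i => (if i = a b then γ b else 0) + if i = a' b then 1 else 0) (by
      rw [mem_LG]
      intro b'
      by_cases e : b' = b
      · subst e
        rw [if_pos rfl, if_neg (hd b' b'), if_neg (hd b' b').symm, if_pos rfl]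
        ring
      · rw [if_neg fun h => e (ha h), if_neg (hd b' b), if_neg (hd b b').symm,
          if_neg fun h => e (ha' h)]
        ring)
    simp only [mul_add, mul_ite, mul_one, mul_zero, Finset.sum_add_distrib,
      Finset.sum_ite_eq', Finset.mem_univ, if_true] at h1
    have h2 := congrArg Complex.im h1
    rw [Complex.add_im, Complex.im_ofReal_mul, Complex.ofReal_im, add_zero, Complex.zero_im] at h2
    have h3 : c (a b) = 0 := by
      rcases mul_eq_zero.1 h2 with h | h
      · exact h
      · exact absurd h (hγ b)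
    refine ⟨h3, ?_⟩
    rw [h3, Complex.ofReal_zero, zero_mul, zero_add] at h1
    exact_mod_cast h1
  funext i
  by_cases h1 : ∃ b, a b = i
  · obtain ⟨b, rfl⟩ := h1
    exact (hab b).1
  by_cases h2 : ∃ b, a' b = i
  · obtain ⟨b, rfl⟩ := h2
    exact (hab b).2
  push Not at h1 h2
  have h3 := hcon (fun j => if j = i then 1 else 0) (by
    rw [mem_LG]
    intro b
    rw [if_neg (h1 b), if_neg (h2 b), mul_zero])
  simp only [mul_ite, mul_one, mul_zero, Finset.sum_ite_eq', Finset.mem_univ, if_true] at h3
  exact_mod_cast h3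

/-- for every matrix with unit rows at `a` some of the spaces meets its column space in `0` -/
theorem exists_LG (c c' : Fin r → ℂ) (hc : ∀ b, c b ≠ c' b) (S : Fin n → Fin r → ℚ)
    (hS : ∀ b b', S (a b) b' = if b = b' then 1 else 0) :
    ∃ γ : Fin r → ℂ, (∀ b, γ b = c b ∨ γ b = c' b) ∧
      ∀ v : Fin r → ℂ, (fun j => ∑ b, ((S j b : ℚ) : ℂ) * v b) ∈ LG a a' γ → v = 0 := by
  classical
  obtain ⟨γ, hγ, hdet⟩ := exists_det (Matrix.of fun b b' => ((S (a' b) b' : ℚ) : ℂ)) c c' hc
  refine ⟨γ, hγ, fun v hv => ?_⟩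
  by_contra hv0
  apply hdet
  rw [← Matrix.exists_mulVec_eq_zero_iff]
  refine ⟨v, hv0, ?_⟩
  funext b
  have h1 : (∑ b', ((S (a b) b' : ℚ) : ℂ) * v b') =
    γ b * ∑ b', ((S (a' b) b' : ℚ) : ℂ) * v b' := hv b
  have h2 : (∑ b', ((S (a b) b' : ℚ) : ℂ) * v b') = v b := by
    simp only [hS]
    rw [Finset.sum_eq_single b]
    · simp
    · intro b' _ hb'
      rw [if_neg hb'.symm]
      simp
    · intro h
      exact absurd (Finset.mem_univ b) h
  rw [h2] at h1
  rw [Matrix.sub_mulVec, Matrix.one_mulVec, Pi.sub_apply, Pi.zero_apply, sub_eq_zero, h1,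
    ← Matrix.mulVec_mulVec, Matrix.mulVec_diagonal]
  rfl

/-- the projection to the space -/
noncomputable def sub (γ : Fin r → ℂ) (i : Fin n) : MvPolynomial (Fin n) ℂ :=
  open Classical in if h : ∃ b, a b = i then C (γ h.choose) * X (a' h.choose) else X i

theorem eval_sub (γ : Fin r → ℂ) (z : Fin n → ℂ) (f : MvPolynomial (Fin n) ℂ) :
    eval z (aeval (sub a a' γ) f) = eval (fun i => eval z (sub a a' γ i)) f := by
  have h : (eval z).comp ((aeval (sub a a' γ) : MvPolynomial (Fin n) ℂ →ₐ[ℂ]
      MvPolynomial (Fin n) ℂ) : _ →+* _) = eval (fun i => eval z (sub a a' γ i)) := by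
    refine MvPolynomial.ringHom_ext (fun t => ?_) fun i => ?_
    · simp
    · simp
  exact RingHom.congr_fun h f

include ha hd in
theorem sub_mem (γ : Fin r → ℂ) (z : Fin n → ℂ) :
    (fun i => eval z (sub a a' γ i)) ∈ LG a a' γ := by
  classical
  rw [mem_LG]
  intro b
  have h1 : ∃ b', a b' = a b := ⟨b, rfl⟩
  have h2 : ¬ ∃ b', a b' = a' b := by
    rintro ⟨b', h⟩
    exact hd b' b h
  have h3 : h1.choose = b := ha h1.choose_spec
  simp only [sub]
  rw [dif_pos h1, dif_neg h2, h3]
  simp

theorem sub_id (γ : Fin r → ℂ) (z : Fin n → ℂ) (hz : z ∈ LG a a' γ) :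
    (fun i => eval z (sub a a' γ i)) = z := by
  classical
  funext i
  simp only [sub]
  by_cases h : ∃ b, a b = i
  · rw [dif_pos h]
    have h3 := h.choose_spec
    have h4 := hz h.choose
    rw [h3] at h4
    simp [h4]
  · rw [dif_neg h, eval_X]

include ha hd in
/-- finitely many polynomials which do not vanish on the space have a common point -/
theorem common (γ : Fin r → ℂ) {ι : Type} (T : Finset ι) (f : ι → MvPolynomial (Fin n) ℂ)
    (hf : ∀ i ∈ T, ∃ z ∈ LG a a' γ, eval z (f i) ≠ 0) :
    ∃ z ∈ LG a a' γ, ∀ i ∈ T, eval z (f i) ≠ 0 := by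
  classical
  have h1 : aeval (sub a a' γ) (∏ i ∈ T, f i) ≠ (0 : MvPolynomial (Fin n) ℂ) := by
    rw [map_prod, Finset.prod_ne_zero_iff]
    intro i hi h
    obtain ⟨z, hz, hzf⟩ := hf i hi
    apply hzf
    have h2 := eval_sub a a' γ z (f i)
    rw [h, map_zero, sub_id a a' γ z hz] at h2
    exact h2.symm
  obtain ⟨z, hz⟩ : ∃ z, eval z (aeval (sub a a' γ) (∏ i ∈ T, f i)) ≠ 0 := by
    by_contra hcon
    push Not at hcon
    exact h1 (MvPolynomial.funext fun z => by rw [hcon z, map_zero])
  refine ⟨_, sub_mem a a' ha hd γ z, ?_⟩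
  rw [eval_sub, map_prod] at hz
  exact Finset.prod_ne_zero_iff.1 hz

include ha ha' hd in
theorem coord_ne (γ : Fin r → ℂ) (b : Fin r) : ∃ z ∈ LG a a' γ, eval z (X (a' b)) ≠ 0 := by
  classical
  refine ⟨fun i => (if i = a b then γ b else 0) + if i = a' b then 1 else 0, ?_, ?_⟩
  · rw [mem_LG]
    intro b'
    by_cases e : b' = b
    · subst e
      rw [if_pos rfl, if_neg (hd b' b'), if_neg (hd b' b').symm, if_pos rfl]
      ring
    · rw [if_neg fun h => e (ha h), if_neg (hd b' b), if_neg (hd b b').symm,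
        if_neg fun h => e (ha' h)]
      ring
  · rw [eval_X, if_neg (hd b b).symm, if_pos rfl]
    simp

include ha ha' hd in
theorem grad (c c' : Fin r → ℂ) (hc : ∀ b, c b ≠ c' b) (G q : Fin r → MvPolynomial (Fin n) ℂ)
    (hG : ∀ b, G b = (X (a b) - C (c b) * X (a' b)) * (X (a b) - C (c' b) * X (a' b)) * q b)
    (γ : Fin r → ℂ) (hγ : ∀ b, γ b = c b ∨ γ b = c' b)
    (hq : ∀ b, ∃ z ∈ LG a a' γ, eval z (q b) ≠ 0) :
    (∀ b, ∀ z ∈ LG a a' γ, eval z (G b) = 0) ∧
      ∃ z ∈ LG a a' γ, LinearIndependent ℂ fun b j => eval z (pderiv j (G b)) := by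
  classical
  have hG' : ∀ b, ∃ δ : ℂ, δ ≠ γ b ∧
      G b = (X (a b) - C (γ b) * X (a' b)) * ((X (a b) - C δ * X (a' b)) * q b) := by
    intro b
    rcases hγ b with h | h
    · refine ⟨c' b, ?_, ?_⟩
      · rw [h]
        exact (hc b).symm
      · rw [hG, h]
        ring
    · refine ⟨c b, ?_, ?_⟩
      · rw [h]
        exact hc b
      · rw [hG, h]
        ring
  choose δ hδ hGδ using hG'
  have hl : ∀ b, ∀ z ∈ LG a a' γ, eval z (X (a b) - C (γ b) * X (a' b)) = 0 := by
    intro b z hz
    rw [map_sub, map_mul, eval_X, eval_X, eval_C, hz b, sub_self]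
  refine ⟨fun b z hz => ?_, ?_⟩
  · rw [hGδ, map_mul, hl b z hz, zero_mul]
  · obtain ⟨z, hz, hzq⟩ := common a a' ha hd γ (Finset.univ : Finset (Fin r ⊕ Fin r))
      (Sum.elim q fun b => X (a' b)) (by
        rintro (b | b) -
        · exact hq b
        · exact coord_ne a a' ha ha' hd γ b)
    refine ⟨z, hz, ?_⟩
    have hK : ∀ b j, eval z (pderiv j (G b)) =
        ((if a b = j then 1 else 0) - γ b * (if a' b = j then 1 else 0)) *
          (((γ b - δ b) * z (a' b)) * eval z (q b)) := by
      intro b j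
      rw [hGδ, Derivation.leibniz, map_add, smul_eq_mul, smul_eq_mul, map_mul (eval z),
        map_mul (eval z), hl b z hz, zero_mul, zero_add]
      have h1 : eval z (pderiv j (X (a b) - C (γ b) * X (a' b))) =
          (if a b = j then 1 else 0) - γ b * (if a' b = j then 1 else 0) := by
        rw [map_sub, Derivation.leibniz, pderiv_C, smul_zero, add_zero, smul_eq_mul, pderiv_X,
          pderiv_X, map_sub, map_mul, eval_C]
        simp only [Pi.single_apply]
        split_ifs <;> simp_all
      have h2 : eval z ((X (a b) - C (δ b) * X (a' b)) * q b) =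
          ((γ b - δ b) * z (a' b)) * eval z (q b) := by
        rw [map_mul, map_sub, map_mul, eval_X, eval_X, eval_C, hz b]
        ring
      rw [h1, h2]
      ring
    rw [Fintype.linearIndependent_iff]
    intro t ht b
    have h1 := congrFun ht (a b)
    simp only [Finset.sum_apply, Pi.smul_apply, smul_eq_mul, Pi.zero_apply, hK] at h1
    rw [Finset.sum_eq_single b] at h1
    · rw [if_pos rfl, if_neg (hd b b).symm, mul_zero, sub_zero, one_mul] at h1
      rcases mul_eq_zero.1 h1 with h | h
      · exact h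
      · exfalso
        have h2 := hzq (Sum.inl b) (Finset.mem_univ _)
        have h3 := hzq (Sum.inr b) (Finset.mem_univ _)
        rw [Sum.elim_inr, eval_X] at h3
        rcases mul_eq_zero.1 h with h | h
        · rcases mul_eq_zero.1 h with h | h
          · exact hδ b (sub_eq_zero.1 h).symm
          · exact h3 h
        · exact h2 h
    · intro b' _ hb'
      rw [if_neg fun h => hb' (ha h), if_neg (hd b b').symm]
      ring
    · intro h
      exact absurd (Finset.mem_univ b) h

end Pool.Agent.U573.LF
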