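import Pool.Agent.K3h23.UG.Cor3

/-! Good directions for complete intersections which contain at infinity a linear space, for one
system of slopes. Adapted from the library lemma `t_COR3` (helper12, helper23): there the linear space
is in general position with respect to all rational slopes. -/

set_option autoImplicit false

namespace Pool.Agent.U573.LF

open MvPolynomial Pool.Agent.K3h53.UG Pool.Agent.K3h12.UG

theorem cor (n s r : ℕ) (e : Fin s ⊕ Fin r ≃ Fin n) (G : Fin r → MvPolynomial (Fin n) ℂ)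
    (g : MvPolynomial (Fin n) ℂ) (L : Submodule ℂ (Fin n → ℂ)) (hL : Module.finrank ℂ L = s)
    (hreal : ∀ c : Fin n → ℝ, c ≠ 0 → ∃ v ∈ L, ∑ i, (c i : ℂ) * v i ≠ 0)
    (τ : Fin s → Fin r → ℝ) (hker : ∀ v : Fin r → ℂ, xr e τ 0 v ∈ L → v = 0)
    (hG : ∀ i, ∀ z ∈ L, eval z (G i) = 0)
    (hz : ∃ z ∈ L, LinearIndependent ℂ fun i j => eval z (pderiv j (G i)))
    (hgL : ∃ z ∈ L, eval z g ≠ 0) (U : Set (Fin r → ℝ)) (hU : IsOpen U) (hUne : U.Nonempty) :
    ∃ (lam : Fin s → ℂ) (θ : Fin r → ℂ), Good e G τ lam θ ∧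
      eval (xr e τ lam θ) g ≠ 0 ∧ (fun b => (θ b).re) ∈ U := by
  classical
  -- the projection to the `l`-coordinates
  let Ψ : (Fin n → ℂ) →ₗ[ℂ] (Fin s → ℂ) :=
    { toFun := fun z j => z (e (Sum.inl j)) - ∑ b, ((τ j b : ℝ) : ℂ) * z (e (Sum.inr b))
      map_add' := fun z w => by
        funext j
        simp only [Pi.add_apply, mul_add, Finset.sum_add_distrib]
        ring
      map_smul' := fun c z => by
        funext j
        simp only [Pi.smul_apply, smul_eq_mul, RingHom.id_apply, mul_sub, Finset.mul_sum]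
        congr 1
        refine Finset.sum_congr rfl fun b _ => ?_
        ring }
  have hΨ : ∀ z j, Ψ z j = z (e (Sum.inl j)) - ∑ b, ((τ j b : ℝ) : ℂ) * z (e (Sum.inr b)) :=
    fun _ _ => rfl
  have hxr : ∀ z : Fin n → ℂ, xr e τ (Ψ z) (fun b => z (e (Sum.inr b))) = z := by
    intro z
    funext i
    obtain ⟨x, rfl⟩ := e.surjective i
    unfold xr
    rw [Equiv.symm_apply_apply]
    rcases x with j | b
    · rw [Sum.elim_inl, hΨ]
      ring
    · rfl
  have hxr0 : ∀ z : Fin n → ℂ, Ψ z = 0 → xr e τ 0 (fun b => z (e (Sum.inr b))) = z := by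
    intro z h
    have h1 := hxr z
    rw [h] at h1
    exact h1
  have hcardn : n = s + r := by
    have := Fintype.card_congr e
    simpa using this.symm
  -- `Ψ` is bijective on `L`
  have hinj : Function.Injective (Ψ.domRestrict L) := by
    rw [injective_iff_map_eq_zero]
    rintro ⟨z, hzL⟩ h
    have h1 : Ψ z = 0 := h
    have h2 := hxr0 z h1
    have h3 := hker _ (by rw [h2]; exact hzL)
    apply Subtype.ext
    show z = 0
    rw [← h2, h3]
    funext i
    obtain ⟨x, rfl⟩ := e.surjective i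
    unfold xr
    rw [Equiv.symm_apply_apply]
    rcases x with j | b
    · simp
    · simp
  have hsurj : Function.Surjective (Ψ.domRestrict L) := by
    refine (LinearMap.injective_iff_surjective_of_finrank_eq_finrank ?_).1 hinj
    rw [hL, Module.finrank_fin_fun]
  have hlift : ∀ l : Fin s → ℂ, ∃ z ∈ L, Ψ z = l := by
    intro l
    obtain ⟨z, hz⟩ := hsurj l
    exact ⟨z.1, z.2, hz⟩
  -- the determinant
  set P : MvPolynomial (Fin n) ℂ := (Matrix.of fun i b : Fin r =>
    dd (xr e τ 0 (Pi.single b 1)) (G i)).det with hP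
  have hPe : ∀ z : Fin n → ℂ, eval z P = (Matrix.of fun i b : Fin r =>
      eval z (dd (xr e τ 0 (Pi.single b 1)) (G i))).det := by
    intro z
    rw [hP, RingHom.map_det]
    congr 1
  -- it does not vanish at some point of `L`
  obtain ⟨z0, hz0, hgrad⟩ := hz
  have hLker : ∀ v : Fin n → ℂ, (∀ i, ∑ j, v j * eval z0 (pderiv j (G i)) = 0) → v ∈ L := by
    let A : (Fin n → ℂ) →ₗ[ℂ] (Fin r → ℂ) :=
      (Matrix.of fun i j => eval z0 (pderiv j (G i)) : Matrix (Fin r) (Fin n) ℂ).mulVecLin
    have hA : ∀ v i, A v i = ∑ j, v j * eval z0 (pderiv j (G i)) := by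
      intro v i
      show ∑ j, eval z0 (pderiv j (G i)) * v j = _
      exact Finset.sum_congr rfl fun j _ => mul_comm _ _
    have hle : L ≤ LinearMap.ker A := by
      intro v hv
      rw [LinearMap.mem_ker]
      funext i
      rw [hA, ← eval_dd]
      refine deriv_line (G i) z0 v fun x => ?_
      exact hG i (fun j => z0 j + x * v j) (L.add_mem hz0 (L.smul_mem x hv))
    have hrank : Module.finrank ℂ (LinearMap.ker A) = s := by
      have h1 := A.finrank_range_add_finrank_ker
      rw [Module.finrank_fin_fun] at h1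
      have h2 : Module.finrank ℂ (LinearMap.range A) = r := by
        have h3 : (Matrix.of fun i j => eval z0 (pderiv j (G i)) :
            Matrix (Fin r) (Fin n) ℂ).rank = r := by
          have h4 := LinearIndependent.rank_matrix
            (M := (Matrix.of fun i j => eval z0 (pderiv j (G i)) : Matrix (Fin r) (Fin n) ℂ))
            hgrad
          rw [h4, Fintype.card_fin]
        exact h3
      omega
    have heq : L = LinearMap.ker A := by
      apply Submodule.eq_of_le_of_finrank_eq hle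
      rw [hL, hrank]
    intro v hv
    rw [heq, LinearMap.mem_ker]
    funext i
    rw [hA]
    exact hv i
  have hP0 : eval z0 P ≠ 0 := by
    rw [hPe]
    intro hdet
    obtain ⟨u, hu0, hu⟩ := Matrix.exists_mulVec_eq_zero_iff.2 hdet
    apply hu0
    apply hker
    apply hLker
    intro i
    have h1 := congrFun hu i
    unfold Matrix.mulVec dotProduct at h1
    rw [Pi.zero_apply] at h1
    rw [← h1]
    simp only [Matrix.of_apply, eval_dd, Finset.sum_mul]
    rw [Finset.sum_comm]
    refine Finset.sum_congr rfl fun j _ => ?_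
    have h2 : xr e τ 0 u j = ∑ b, xr e τ 0 (Pi.single b 1) j * u b := by
      obtain ⟨x, rfl⟩ := e.surjective j
      unfold xr
      simp only [Equiv.symm_apply_apply]
      rcases x with j' | b'
      · simp only [Sum.elim_inl, Pi.zero_apply, zero_add]
        refine Finset.sum_congr rfl fun b _ => ?_
        rw [Finset.sum_eq_single b]
        · rw [Pi.single_eq_same, mul_one]
        · intro b'' _ hb''
          rw [Pi.single_eq_of_ne hb'', mul_zero]
        · intro h
          exact absurd (Finset.mem_univ b) h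
      · simp only [Sum.elim_inr]
        rw [Finset.sum_eq_single b']
        · rw [Pi.single_eq_same, one_mul]
        · intro b'' _ hb''
          rw [Pi.single_eq_of_ne hb''.symm, zero_mul]
        · intro h
          exact absurd (Finset.mem_univ b') h
    rw [h2, Finset.sum_mul]
    refine Finset.sum_congr rfl fun b _ => ?_
    ring
  -- a common point
  obtain ⟨zg, hzgL, hzg⟩ := hgL
  obtain ⟨z0, hz0, hP0⟩ : ∃ z ∈ L, eval z (P * g) ≠ 0 := by
    have h1 : (aeval (fun j => Polynomial.C (z0 j) + Polynomial.X * Polynomial.C ((zg - z0) j)) P :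
        Polynomial ℂ) ≠ 0 := by
      intro h
      apply hP0
      have h2 := poly_eval z0 (zg - z0) 0 P
      rw [h, Polynomial.eval_zero] at h2
      rw [h2]
      congr 2
      funext j
      ring
    have h2 : (aeval (fun j => Polynomial.C (z0 j) + Polynomial.X * Polynomial.C ((zg - z0) j)) g :
        Polynomial ℂ) ≠ 0 := by
      intro h
      apply hzg
      have h2 := poly_eval z0 (zg - z0) 1 g
      rw [h, Polynomial.eval_zero] at h2
      rw [h2]
      congr 2
      funext j
      simp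
    obtain ⟨t, ht⟩ : ∃ t : ℂ, (aeval (fun j => Polynomial.C (z0 j) +
        Polynomial.X * Polynomial.C ((zg - z0) j)) P *
        aeval (fun j => Polynomial.C (z0 j) + Polynomial.X * Polynomial.C ((zg - z0) j)) g :
        Polynomial ℂ).eval t ≠ 0 := by
      by_contra hcon
      push Not at hcon
      exact mul_ne_zero h1 h2 (Polynomial.funext fun t => by rw [hcon t, Polynomial.eval_zero])
    rw [Polynomial.eval_mul, poly_eval, poly_eval] at ht
    refine ⟨fun j => z0 j + t * (zg - z0) j, ?_, ?_⟩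
    · exact L.add_mem hz0 (L.smul_mem t (L.sub_mem hzgL hz0))
    · rw [map_mul]
      exact ht
  -- the conclusion
  by_contra hcon
  push Not at hcon
  have hvan : ∀ z ∈ L, (∀ j, (Ψ z j).re = 0) → (fun b => (z (e (Sum.inr b))).re) ∈ U →
      eval z (P * g) = 0 := by
    intro z hzL him hzU
    by_contra hne
    rw [map_mul] at hne
    refine hcon (Ψ z) (fun b => z (e (Sum.inr b))) ⟨him, fun i => ?_, ?_⟩ ?_ hzU
    · rw [hxr]
      exact hG i z hzL
    · rw [hxr, ← hPe]
      exact left_ne_zero_of_mul hne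
    · rw [hxr]
      exact right_ne_zero_of_mul hne
  obtain ⟨θ₀, hθ₀⟩ := hUne
  obtain ⟨z1, hz1, hz1r⟩ := real_parts L hreal
    (fun i => (Sum.elim (fun j => ∑ b, τ j b * θ₀ b) θ₀ : Fin s ⊕ Fin r → ℝ) (e.symm i))
  have hz1K : ∀ b, (z1 (e (Sum.inr b))).re = θ₀ b := by
    intro b
    rw [hz1r, Equiv.symm_apply_apply, Sum.elim_inr]
  have hre : ∀ (z : Fin n → ℂ) j, (Ψ z j).re =
      (z (e (Sum.inl j))).re - ∑ b, τ j b * (z (e (Sum.inr b))).re := by
    intro z j
    rw [hΨ, Complex.sub_re, Complex.re_sum]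
    congr 1
    refine Finset.sum_congr rfl fun b _ => ?_
    rw [Complex.re_ofReal_mul]
  have hz1im : ∀ j, (Ψ z1 j).re = 0 := by
    intro j
    rw [hre, hz1r, Equiv.symm_apply_apply, Sum.elim_inl]
    simp only [hz1K]
    rw [sub_self]
  -- the two directions
  obtain ⟨a, ha, haΨ⟩ := hlift (fun j => Complex.I * ((Ψ (z0 - z1) j).im : ℂ))
  obtain ⟨b, hb, hbΨ⟩ := hlift (fun j => -Complex.I * ((Ψ (z0 - z1) j).re : ℂ))
  have hdec : z0 = fun j => (z1 j + (1 : ℂ) * a j) + Complex.I * b j := by
    have h1 : z0 - z1 - a - Complex.I • b ∈ L :=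
      L.sub_mem (L.sub_mem (L.sub_mem hz0 hz1) ha) (L.smul_mem _ hb)
    have h2 : Ψ.domRestrict L ⟨z0 - z1 - a - Complex.I • b, h1⟩ = 0 := by
      show Ψ (z0 - z1 - a - Complex.I • b) = 0
      rw [map_sub, map_sub, map_smul, haΨ, hbΨ]
      funext j
      simp only [Pi.sub_apply, Pi.smul_apply, smul_eq_mul, Pi.zero_apply]
      have h3 := Complex.re_add_im (Ψ (z0 - z1) j)
      linear_combination -h3 + ((Ψ (z0 - z1) j).re : ℂ) * Complex.I_mul_I
    have h3 := hinj (h2.trans (map_zero _).symm)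
    have h4 : z0 - z1 - a - Complex.I • b = 0 := congrArg Subtype.val h3
    funext j
    have h5 := congrFun h4 j
    simp only [Pi.sub_apply, Pi.smul_apply, smul_eq_mul, Pi.zero_apply] at h5
    linear_combination h5
  -- small real multiples
  have hopen : ∃ ε : ℝ, 0 < ε ∧ ∀ x y : ℝ, |x| < ε → |y| < ε →
      (fun c => (z1 (e (Sum.inr c)) + (x : ℂ) * a (e (Sum.inr c)) +
        (y : ℂ) * b (e (Sum.inr c))).re) ∈ U := by
    have hcont : Continuous fun p : ℝ × ℝ => (fun c => (z1 (e (Sum.inr c)) +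
        (p.1 : ℂ) * a (e (Sum.inr c)) + (p.2 : ℂ) * b (e (Sum.inr c))).re : Fin r → ℝ) := by
      fun_prop
    have h1 := hU.preimage hcont
    have h2 : ((0 : ℝ), (0 : ℝ)) ∈ (fun p : ℝ × ℝ => (fun c => (z1 (e (Sum.inr c)) +
        (p.1 : ℂ) * a (e (Sum.inr c)) + (p.2 : ℂ) * b (e (Sum.inr c))).re : Fin r → ℝ)) ⁻¹' U := by
      show (fun c => (z1 (e (Sum.inr c)) + ((0 : ℝ) : ℂ) * a (e (Sum.inr c)) +
        ((0 : ℝ) : ℂ) * b (e (Sum.inr c))).re : Fin r → ℝ) ∈ U
      have e1 : (fun c => (z1 (e (Sum.inr c)) + ((0 : ℝ) : ℂ) * a (e (Sum.inr c)) +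
        ((0 : ℝ) : ℂ) * b (e (Sum.inr c))).re : Fin r → ℝ) = θ₀ := by
        funext c
        rw [Complex.ofReal_zero, zero_mul, zero_mul, add_zero, add_zero, hz1K]
      rw [e1]
      exact hθ₀
    obtain ⟨ε, hε, hball⟩ := Metric.isOpen_iff.1 h1 _ h2
    refine ⟨ε, hε, fun x y hx hy => ?_⟩
    have h3 : ((x, y) : ℝ × ℝ) ∈ Metric.ball ((0 : ℝ), (0 : ℝ)) ε := by
      rw [Metric.mem_ball, Prod.dist_eq]
      simp only [Real.dist_eq, sub_zero]
      exact max_lt hx hy
    exact hball h3
  obtain ⟨ε, hε, hsmall⟩ := hopen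
  have hΨa : ∀ j, (Ψ a j).re = 0 := by
    intro j
    rw [haΨ]
    simp
  have hΨb : ∀ j, (Ψ b j).re = 0 := by
    intro j
    rw [hbΨ]
    simp
  have hstep : ∀ x y : ℝ, |x| < ε → |y| < ε →
      eval (fun j => (z1 j + (y : ℂ) * b j) + (x : ℂ) * a j) (P * g) = 0 := by
    intro x y hx hy
    refine hvan _ (L.add_mem (L.add_mem hz1 (L.smul_mem (y : ℂ) hb)) (L.smul_mem (x : ℂ) ha))
      (fun j => ?_) ?_
    · have h1 : (fun j => (z1 j + (y : ℂ) * b j) + (x : ℂ) * a j) =
        z1 + (y : ℂ) • b + (x : ℂ) • a := rfl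
      rw [h1, map_add, map_add, map_smul, map_smul]
      simp only [Pi.add_apply, Pi.smul_apply, smul_eq_mul, Complex.add_re, Complex.re_ofReal_mul,
        hz1im, hΨa, hΨb, mul_zero, add_zero]
    · have h1 := hsmall x y hx hy
      have e1 : (fun c => ((z1 (e (Sum.inr c)) + (y : ℂ) * b (e (Sum.inr c))) +
          (x : ℂ) * a (e (Sum.inr c))).re) = fun c => (z1 (e (Sum.inr c)) +
          (x : ℂ) * a (e (Sum.inr c)) + (y : ℂ) * b (e (Sum.inr c))).re := by
        funext c
        congr 1
        ring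
      rw [e1]
      exact h1
  have h1 : ∀ y : ℝ, |y| < ε → ∀ x : ℂ, eval (fun j => (z1 j + (y : ℂ) * b j) + x * a j) (P * g) = 0 :=
    fun y hy => line_zero (P * g) _ a ε hε fun x hx => hstep x y hx hy
  have h2 : ∀ x y : ℂ, eval (fun j => (z1 j + x * a j) + y * b j) (P * g) = 0 := by
    intro x
    refine line_zero (P * g) _ b ε hε fun y hy => ?_
    have h3 := h1 y hy x
    have e1 : (fun j => (z1 j + x * a j) + (y : ℂ) * b j) =
      fun j => (z1 j + (y : ℂ) * b j) + x * a j := by
      funext j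
      ring
    rw [e1]
    exact h3
  apply hP0
  rw [hdec]
  exact h2 1 Complex.I

end Pool.Agent.U573.LF
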