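import Pool.Agent.K3h53.UG.Fin11
import Pool.Agent.U573.LF.Cor

/-! Exponential points on varieties over a base which contains many linear spaces at infinity. -/

set_option autoImplicit false

namespace Pool.Agent.U573.LF

open MvPolynomial Set Pool.Agent.K3h53.UG Pool.Agent.K3h22.EX

variable {n s r : ℕ} (hn : n = s + r)
    (P : Ideal (MvPolynomial (Fin n ⊕ Fin n) ℂ)) (V : Set (Fin n ⊕ Fin n → ℂ)) (hP : P.IsPrime)
    (hV : V = {p | (∀ f ∈ P, eval p f = 0) ∧ ∀ j : Fin n, p (Sum.inr j) ≠ 0})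
    (hne : V.Nonempty)
    (hX1 : ∃ K : Finset (Fin n), K.card = s ∧ ∀ G : MvPolynomial (Fin n) ℂ, G.vars ⊆ K →
      (∀ u ∈ V, eval (fun i => u (Sum.inl i)) G = 0) → G = 0)
    (hX2 : ∀ K : Finset (Fin n), K.card = s + 1 → ¬ ∀ G : MvPolynomial (Fin n) ℂ, G.vars ⊆ K →
      (∀ u ∈ V, eval (fun i => u (Sum.inl i)) G = 0) → G = 0)

include hn hP hV hne hX1 hX2

/-- a family of linear spaces at infinity: for each rational matrix `S` with unit rows at `κ` one of
them meets the column space of `S` in `0` -/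
theorem fam (κ : Fin r → Fin n) (hκ : Function.Injective κ)
    (hind : ∀ g : MvPolynomial (Fin r) (MvPolynomial (Fin n) ℂ),
      (∀ u ∈ V, eval (fun b => u (Sum.inr (κ b)))
        (MvPolynomial.map (eval fun i => u (Sum.inl i)) g) = 0) →
      ∀ m, ∀ u ∈ V, eval (fun i => u (Sum.inl i)) (coeff m g) = 0)
    (F : Fin r → MvPolynomial (Fin n) ℂ) (g : MvPolynomial (Fin n) ℂ)
    (hIF : ∀ x : Fin n → ℂ, (∀ i, eval x (F i) = 0) → eval x g ≠ 0 →
      ∀ G : MvPolynomial (Fin n) ℂ, (∀ u ∈ V, eval (fun i => u (Sum.inl i)) G = 0) →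
        eval x G = 0)
    (hfam : ∀ S : Fin n → Fin r → ℚ, (∀ b b', S (κ b) b' = if b = b' then 1 else 0) →
      ∃ L : Submodule ℂ (Fin n → ℂ), Module.finrank ℂ L = s ∧
        (∀ c : Fin n → ℝ, c ≠ 0 → ∃ v ∈ L, ∑ i, (c i : ℂ) * v i ≠ 0) ∧
        (∀ v : Fin r → ℂ, (fun j => ∑ b, ((S j b : ℚ) : ℂ) * v b) ∈ L → v = 0) ∧
        (∀ i, ∀ z ∈ L, eval z (top (F i)) = 0) ∧
        (∃ z ∈ L, LinearIndependent ℂ fun i j => eval z (pderiv j (top (F i)))) ∧
        ∃ z ∈ L, eval z (top g) ≠ 0)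
    (c : Fin n ⊕ Fin n → ℂ) (hc : ∀ i, c (Sum.inr i) ≠ 0)
    (H : MvPolynomial (Fin n ⊕ Fin n) ℂ)
    (hHV : ∃ u ∈ V, eval (Sum.elim (fun i => u (Sum.inl i) + c (Sum.inl i))
      (fun i => c (Sum.inr i) * u (Sum.inr i))) H ≠ 0) :
    ∃ z : Fin n → ℂ, (∃ u ∈ V, (Sum.elim z fun i => Complex.exp (z i) :
      Fin n ⊕ Fin n → ℂ) = Sum.elim (fun i => u (Sum.inl i) + c (Sum.inl i))
        (fun i => c (Sum.inr i) * u (Sum.inr i))) ∧
      eval (Sum.elim z fun i => Complex.exp (z i)) H ≠ 0 := by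
  classical
  obtain ⟨H', hH'⟩ := pullback c H
  obtain ⟨u, hu, huH⟩ := hHV
  rw [← hH'] at huH
  obtain ⟨L, hL, hLi⟩ := hX1
  have hT := (fibre_iff P V hP hV hne hX2 L hL hLi κ hκ).1 hind
  have hTc : (L.image Sum.inl ∪ Finset.univ.image fun b => Sum.inr (κ b) :
      Finset (Fin n ⊕ Fin n)).card = n := by
    rw [Finset.card_union_of_disjoint, Finset.card_image_of_injective _ Sum.inl_injective,
      Finset.card_image_of_injective _ (fun a b h => hκ (Sum.inr_injective h)), hL,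
      Finset.card_univ, Fintype.card_fin, hn]
    rw [Finset.disjoint_left]
    intro x hx hx'
    obtain ⟨a, -, rfl⟩ := Finset.mem_image.1 hx
    obtain ⟨b, -, hb⟩ := Finset.mem_image.1 hx'
    exact absurd hb (by simp)
  obtain ⟨P', V', h1, h2, h3, ⟨v, hv, hvH⟩, h5, h6, h7⟩ := reduceT hn P V hP hV hne hX2 L hL _
    (fun j hj => Finset.mem_union_left _ (Finset.mem_image_of_mem _ hj)) hTc hT H' ⟨u, hu, huH⟩
  have hX2' : ∀ K : Finset (Fin n), K.card = s + 1 → ¬ ∀ G : MvPolynomial (Fin n) ℂ,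
      G.vars ⊆ K → (∀ u ∈ V', eval (fun i => u (Sum.inl i)) G = 0) → G = 0 := by
    intro K hK hcon
    exact hX2 K hK fun G hG hGV => hcon G hG ((h7 G).2 hGV)
  have hLi' : ∀ G : MvPolynomial (Fin n) ℂ, G.vars ⊆ L →
      (∀ u ∈ V', eval (fun i => u (Sum.inl i)) G = 0) → G = 0 :=
    fun G hG hGV => hLi G hG ((h7 G).1 hGV)
  have hind' := (fibre_iff P' V' h1 h2 ⟨v, hv⟩ hX2' L hL hLi' κ hκ).2 h5
  obtain ⟨e, he⟩ := exists_equiv hn κ hκ
  have hcr : ∀ (σ : Fin s → Fin r → ℚ) (U' : Set (Fin r → ℝ)), IsOpen U' →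
      U' ⊆ Set.univ → U'.Nonempty → ∃ (lam : Fin s → ℂ) (θ : Fin r → ℂ),
      Good e (fun i => wtop (fun _ => 1) (F i)) (sg e (fun _ => 1) fun j b => ((σ j b : ℚ) : ℝ))
        lam θ ∧
        eval (xr e (sg e (fun _ => 1) fun j b => ((σ j b : ℚ) : ℝ)) lam θ)
          (wtop (fun _ => 1) g) ≠ 0 ∧
        (fun b => (θ b).re) ∈ U' := by
    intro σ U' hU' _ hne'
    obtain ⟨L', g1, g2, g3, g4, g5, g6⟩ := hfam
      (fun i b => Sum.elim (fun j => σ j b) (fun b' => if b' = b then 1 else 0) (e.symm i))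
      (fun b b' => by
        show Sum.elim (fun j => σ j b') (fun b'' => if b'' = b' then (1 : ℚ) else 0)
          (e.symm (κ b)) = _
        rw [← he b, Equiv.symm_apply_apply, Sum.elim_inr])
    have hker : ∀ v : Fin r → ℂ, xr e (fun j b => ((σ j b : ℚ) : ℝ)) 0 v ∈ L' → v = 0 := by
      intro v hv
      refine g3 v ?_
      have e1 : (fun j => ∑ b, (((Sum.elim (fun j' => σ j' b)
          (fun b' => if b' = b then 1 else 0) (e.symm j) : ℚ)) : ℂ) * v b) =
          xr e (fun j b => ((σ j b : ℚ) : ℝ)) 0 v := by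
        funext i
        obtain ⟨x, rfl⟩ := e.surjective i
        unfold xr
        simp only [Equiv.symm_apply_apply]
        rcases x with j | b
        · simp only [Sum.elim_inl, Pi.zero_apply, zero_add]
          refine Finset.sum_congr rfl fun b _ => ?_
          push_cast
          rfl
        · simp only [Sum.elim_inr]
          rw [Finset.sum_eq_single b]
          · rw [if_pos rfl]
            push_cast
            ring
          · intro b' _ hb'
            rw [if_neg hb'.symm]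
            push_cast
            ring
          · intro h
            exact absurd (Finset.mem_univ b) h
      rw [e1]
      exact hv
    obtain ⟨lam, θ, k1, k2, k3⟩ := cor n s r e (fun i => top (F i)) (top g) L' g1 g2
      (fun j b => ((σ j b : ℚ) : ℝ)) hker g4 g5 g6 U' hU' hne'
    have e1 : (sg e (fun _ => 1) fun j b => ((σ j b : ℚ) : ℝ)) =
        fun j b => ((σ j b : ℚ) : ℝ) := by
      funext j b
      simp [sg]
    refine ⟨lam, θ, ?_, ?_, k3⟩
    · simp only [e1, wtop_one]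
      exact k1
    · rw [e1, wtop_one]
      exact k2
  obtain ⟨z, ⟨u', hu', hz⟩, hzH⟩ := thmDir hn P' V' h1 h2 ⟨v, hv⟩ ⟨_, hTc, h5⟩ h6 ⟨L, hL, hLi'⟩
    hX2' e (by simpa only [he] using hind') (fun _ => 1) (fun _ => le_rfl) (fun _ => rfl) F g
    (fun x hx hxg G hG => hIF x hx hxg G ((h7 G).1 hG)) Set.univ isOpen_univ ⟨0, trivial⟩
    hcr c hc H ⟨v, hv, by rw [← hH']; exact hvH⟩
  exact ⟨z, ⟨u', h3 hu', hz⟩, hzH⟩

end Pool.Agent.U573.LF
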