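import Mathlib

/-! Varieties with a rational parametrization by two groups of `r` parameters -/

set_option autoImplicit false

namespace Pool.Agent.U573.LF

open MvPolynomial

/-- clearing of denominators -/
theorem clear {σ τ : Type} (D : MvPolynomial τ ℂ) (pt : (τ → ℂ) → σ → ℂ)
    (h : ∀ i, ∃ (M : ℕ) (x : MvPolynomial τ ℂ), ∀ p, eval p D ≠ 0 →
      eval p x = (eval p D) ^ M * pt p i) (f : MvPolynomial σ ℂ) :
    ∃ (N : ℕ) (f' : MvPolynomial τ ℂ), ∀ p, eval p D ≠ 0 →
      eval p f' = (eval p D) ^ N * eval (pt p) f := by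
  induction f using MvPolynomial.induction_on with
  | C a => exact ⟨0, C a, fun p _ => by simp⟩
  | add f g hf hg =>
    obtain ⟨N, f', hf⟩ := hf
    obtain ⟨M, g', hg⟩ := hg
    refine ⟨N + M, f' * D ^ M + g' * D ^ N, fun p hp => ?_⟩
    rw [map_add, map_mul, map_mul, map_pow, map_pow, hf p hp, hg p hp, map_add]
    ring
  | mul_X f i hf =>
    obtain ⟨N, f', hf⟩ := hf
    obtain ⟨M, x, hx⟩ := h i
    refine ⟨N + M, f' * x, fun p hp => ?_⟩
    rw [map_mul, hf p hp, hx p hp, map_mul, eval_X]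
    ring

theorem zero_of {τ : Type} (D f : MvPolynomial τ ℂ) (hD : D ≠ 0)
    (h : ∀ p, eval p D ≠ 0 → eval p f = 0) : f = 0 := by
  have h1 : f * D = 0 := by
    apply MvPolynomial.funext
    intro p
    rw [map_mul, map_zero]
    by_cases hp : eval p D = 0
    · rw [hp, mul_zero]
    · rw [h p hp, zero_mul]
  rcases mul_eq_zero.1 h1 with h | h
  · exact h
  · exact absurd h hD

/-- the conic in terms of its parameter -/
theorem conic {c c' α β z w : ℂ} (hc : c ≠ c') (hα : α ≠ 0) (hβ : β ≠ 0)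
    (h : (z - c * w) * (z - c' * w) + (c - c') ^ 2 * α * β = 0) :
    ∃ t : ℂ, t ≠ 0 ∧ t = ((c - c') * α)⁻¹ * (z - c' * w) ∧ z = c * α * t + c' * β * t⁻¹ ∧
      w = α * t + β * t⁻¹ := by
  have hcc : c - c' ≠ 0 := sub_ne_zero.2 hc
  have hp : z - c' * w ≠ 0 := by
    intro h0
    rw [h0, mul_zero, zero_add] at h
    exact mul_ne_zero (mul_ne_zero (pow_ne_zero 2 hcc) hα) hβ h
  have hq : (z - c * w) = -((c - c') ^ 2 * α * β) * (z - c' * w)⁻¹ := by
    rw [eq_mul_inv_iff_mul_eq₀ hp]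
    linear_combination h
  refine ⟨((c - c') * α)⁻¹ * (z - c' * w), mul_ne_zero (inv_ne_zero (mul_ne_zero hcc hα)) hp, rfl,
    ?_, ?_⟩
  · have h1 : (c - c') * z = c * (z - c' * w) - c' * (z - c * w) := by ring
    apply mul_left_cancel₀ hcc
    rw [h1, hq]
    generalize z - c' * w = p at hp
    field_simp
    ring
  · have h1 : (c - c') * w = (z - c' * w) - (z - c * w) := by ring
    apply mul_left_cancel₀ hcc
    rw [h1, hq]
    generalize z - c' * w = p at hp
    field_simp
    ring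

theorem conic' {c c' α β t : ℂ} (ht : t ≠ 0) (hc : c ≠ c') (hα : α ≠ 0) :
    ((c * α * t + c' * β * t⁻¹) - c * (α * t + β * t⁻¹)) *
      ((c * α * t + c' * β * t⁻¹) - c' * (α * t + β * t⁻¹)) + (c - c') ^ 2 * α * β = 0 ∧
    ((c - c') * α)⁻¹ * ((c * α * t + c' * β * t⁻¹) - c' * (α * t + β * t⁻¹)) = t := by
  have hcc : c - c' ≠ 0 := sub_ne_zero.2 hc
  constructor
  · field_simp
    ring
  · field_simp
    ring

theorem exists_param {a b z : ℂ} (ha : a ≠ 0) (hb : b ≠ 0) : ∃ t : ℂ, t ≠ 0 ∧ z = a * t + b * t⁻¹ := by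
  obtain ⟨t, ht⟩ := exists_quadratic_eq_zero (a := a) (b := -z) (c := b) ha (by
    obtain ⟨s, hs⟩ := IsAlgClosed.exists_pow_nat_eq (discrim a (-z) b) (n := 2) (by norm_num)
    exact ⟨s, by rw [← hs]; ring⟩)
  have ht0 : t ≠ 0 := by
    rintro rfl
    apply hb
    simpa using ht
  refine ⟨t, ht0, ?_⟩
  field_simp
  linear_combination -ht

/-- the leading form of a nonconstant form plus a constant -/
theorem leading_add {σ : Type} {d : ℕ} (hd : 0 < d) (Q : MvPolynomial σ ℂ)
    (hQ : Q.IsHomogeneous d) (hQ0 : Q ≠ 0) (k : ℂ) :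
    homogeneousComponent (Q + C k).totalDegree (Q + C k) = Q := by
  have h1 : Q.totalDegree = d := hQ.totalDegree hQ0
  have h2 : (Q + C k).totalDegree = d := by
    rw [totalDegree_add_eq_left_of_totalDegree_lt, h1]
    rw [totalDegree_C, h1]
    exact hd
  have h3 : homogeneousComponent d (C k : MvPolynomial σ ℂ) = 0 := by
    apply homogeneousComponent_eq_zero
    rw [totalDegree_C]
    exact hd
  have h4 : homogeneousComponent d Q = Q := by
    rw [homogeneousComponent_of_mem hQ, if_pos rfl]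
  rw [h2, map_add, h3, h4, add_zero]

end Pool.Agent.U573.LF
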